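import Pool.Agent.Helper61.FN.GoalsC
import Pool.Agent.Helper61.FN.Tools

/-!
# Project FN, packet FN-C0B
-/

set_option autoImplicit false

namespace Pool.Agent.Helper77.FN

open Finset Pool.Agent.Helper61.FN

theorem s20 {k : Type} [AddCommMonoid k] (f : Fin 20 → k) : ∑ j, f j =
    f 0 + (f 1 + (f 2 + (f 3 + (f 4 + (f 5 + (f 6 + (f 7 + (f 8 + (f 9 + (f 10 + (f 11 + (f 12 +
    (f 13 + (f 14 + (f 15 + (f 16 + (f 17 + (f 18 + f 19)))))))))))))))))) := by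
  simp only [Fin.sum_univ_succ, Fin.sum_univ_zero, add_zero]
  rfl

theorem ed2 {k : Type} [Field k] (T : Fin 20 → k) (h : ∑ j, ((mC j 2 : ℤ) : k) * T j = 0) :
    -T 2 + T 12 + T 14 - T 15 - T 16 = 0 := by
  rw [s20] at h
  simp [mC] at h
  linear_combination h

theorem ed3 {k : Type} [Field k] (T : Fin 20 → k) (h : ∑ j, ((mC j 3 : ℤ) : k) * T j = 0) :
    -T 3 + T 13 + T 17 - T 18 - T 19 = 0 := by
  rw [s20] at h
  simp [mC] at h
  linear_combination h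

theorem ed4 {k : Type} [Field k] (T : Fin 20 → k) (h : ∑ j, ((mC j 4 : ℤ) : k) * T j = 0) :
    -T 4 - T 6 + T 7 - T 8 - T 9 + T 10 - T 11 - 2 * T 12 = 0 := by
  rw [s20] at h
  simp [mC] at h
  linear_combination h

/-- **FN-C0B**. -/
theorem goalC0B : G_C0B := by
  intro F k _ _ _ _ _ p q mu ep lam v M ξ h hp h35 h24
  have a0 := hp 0
  have a1 := hp 1
  have a2 := hp 2
  have a3 := hp 3
  have a4 := hp 4
  have a5 := hp 5
  have hq := h.par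
  have hp0 : (0 : F) < p := lt_of_lt_of_le one_pos hq.p1
  have hq0 : (0 : F) < q := lt_of_lt_of_le one_pos hq.q1
  have hmu := hq.mu0
  have hph := hq.ph0
  have hch := hq.ch0
  obtain ⟨T, hT⟩ : ∃ T : Fin 20 → k, ∀ j, T j = if gr (mC j) v = 0 then
    algebraMap F k (cC p q mu ep j) * mon ξ (mC j) else 0 := ⟨_, fun j ↦ rfl⟩
  have hs (e : Fin 6) : ∑ j, ((mC j e : ℤ) : k) * T j = 0 := by
    rw [← h.nrm.ld0 e]
    exact sum_congr rfl fun j _ ↦ by rw [hT]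
  have e2 := ed2 T (hs 2)
  have e3 := ed3 T (hs 3)
  have e4 := ed4 T (hs 4)
  have hz (j : Fin 20) (hj : gr (mC j) v ≠ 0) : T j = 0 := by rw [hT, if_neg hj]
  have hnz (j : Fin 20) (hj : gr (mC j) v = 0) (hc : cC p q mu ep j ≠ 0) : T j ≠ 0 := by
    rw [hT, if_pos hj]
    exact mul_ne_zero (am_ne hc) (mon_ne h.nrm.ne _)
  have hg (j : Fin 20) : gr (mC j) v = mC j 0 * v 0 + mC j 1 * v 1 + mC j 2 * v 2 + mC j 3 * v 3 +
    mC j 4 * v 4 + mC j 5 * v 5 := gr6 _ _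
  have y2 : -v 2 ≠ 0 → T 2 = 0 := fun h1 ↦ hz 2 (by
    intro h2
    apply h1
    rw [← h2, hg]
    simp [mC])
  have y3 : -v 3 ≠ 0 → T 3 = 0 := fun h1 ↦ hz 3 (by
    intro h2
    apply h1
    rw [← h2, hg]
    simp [mC])
  have y4 : -v 4 ≠ 0 → T 4 = 0 := fun h1 ↦ hz 4 (by
    intro h2
    apply h1
    rw [← h2, hg]
    simp [mC])
  have y6 : v 0 - v 4 - v 5 ≠ 0 → T 6 = 0 := fun h1 ↦ hz 6 (by
    intro h2
    apply h1
    rw [← h2, hg]
    simp [mC]; ring)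
  have y7 : -v 0 + v 4 - v 5 ≠ 0 → T 7 = 0 := fun h1 ↦ hz 7 (by
    intro h2
    apply h1
    rw [← h2, hg]
    simp [mC]; ring)
  have y8 : -v 0 - v 4 + v 5 ≠ 0 → T 8 = 0 := fun h1 ↦ hz 8 (by
    intro h2
    apply h1
    rw [← h2, hg]
    simp [mC]; ring)
  have y9 : v 1 - v 4 - v 5 ≠ 0 → T 9 = 0 := fun h1 ↦ hz 9 (by
    intro h2
    apply h1
    rw [← h2, hg]
    simp [mC]; ring)
  have y10 : -v 1 + v 4 - v 5 ≠ 0 → T 10 = 0 := fun h1 ↦ hz 10 (by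
    intro h2
    apply h1
    rw [← h2, hg]
    simp [mC]; ring)
  have y11 : -v 1 - v 4 + v 5 ≠ 0 → T 11 = 0 := fun h1 ↦ hz 11 (by
    intro h2
    apply h1
    rw [← h2, hg]
    simp [mC]; ring)
  have y12 : v 2 - 2 * v 4 = 0 → cC p q mu ep 12 ≠ 0 → T 12 ≠ 0 := fun h1 h2 ↦ hnz 12 (by rw [hg, ← h1]; simp [mC]; ring) h2
  have y13 : v 3 - 2 * v 5 = 0 → cC p q mu ep 13 ≠ 0 → T 13 ≠ 0 := fun h1 h2 ↦ hnz 13 (by rw [hg, ← h1]; simp [mC]; ring) h2
  have y14 : -v 0 - v 1 + v 2 ≠ 0 → T 14 = 0 := fun h1 ↦ hz 14 (by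
    intro h2
    apply h1
    rw [← h2, hg]
    simp [mC]; ring)
  have y15 : v 0 - v 1 - v 2 ≠ 0 → T 15 = 0 := fun h1 ↦ hz 15 (by
    intro h2
    apply h1
    rw [← h2, hg]
    simp [mC]; ring)
  have y16 : -v 0 + v 1 - v 2 ≠ 0 → T 16 = 0 := fun h1 ↦ hz 16 (by
    intro h2
    apply h1
    rw [← h2, hg]
    simp [mC]; ring)
  have y17 : -v 0 - v 1 + v 3 ≠ 0 → T 17 = 0 := fun h1 ↦ hz 17 (by
    intro h2
    apply h1
    rw [← h2, hg]
    simp [mC]; ring)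
  have y18 : v 0 - v 1 - v 3 ≠ 0 → T 18 = 0 := fun h1 ↦ hz 18 (by
    intro h2
    apply h1
    rw [← h2, hg]
    simp [mC]; ring)
  have y19 : -v 0 + v 1 - v 3 ≠ 0 → T 19 = 0 := fun h1 ↦ hz 19 (by
    intro h2
    apply h1
    rw [← h2, hg]
    simp [mC]; ring)
  have n12 : T 12 ≠ 0 := y12 (by omega) (by
    simp [cC]
    exact ⟨⟨hp0.ne', hph.ne'⟩, hmu.ne'⟩)
  have n13 : T 13 ≠ 0 := y13 (by omega) (by
    simp [cC]
    exact ⟨⟨hq0.ne', hch.ne'⟩, hmu.ne'⟩)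
  have z2 : T 2 = 0 := y2 (by omega)
  have z3 : T 3 = 0 := y3 (by omega)
  have z4 : T 4 = 0 := y4 (by omega)
  have c2 : v 2 = v 0 + v 1 ∨ v 0 = v 2 + v 1 ∨ v 1 = v 2 + v 0 := by
    by_contra hc
    push Not at hc
    have z14 : T 14 = 0 := y14 (by omega)
    have z15 : T 15 = 0 := y15 (by omega)
    have z16 : T 16 = 0 := y16 (by omega)
    apply n12
    rw [z2, z14, z15, z16] at e2
    linear_combination e2
  have c3 : v 3 = v 0 + v 1 ∨ v 0 = v 3 + v 1 ∨ v 1 = v 3 + v 0 := by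
    by_contra hc
    push Not at hc
    have z14 : T 17 = 0 := y17 (by omega)
    have z15 : T 18 = 0 := y18 (by omega)
    have z16 : T 19 = 0 := y19 (by omega)
    apply n13
    rw [z3, z14, z15, z16] at e3
    linear_combination e3
  have c4 : ¬ (v 2 = v 0 + v 1 ∧ v 3 = v 0 + v 1) := by
    rintro ⟨h1, h2⟩
    have z6 : T 6 = 0 := y6 (by omega)
    have z7 : T 7 = 0 := y7 (by omega)
    have z8 : T 8 = 0 := y8 (by omega)
    have z9 : T 9 = 0 := y9 (by omega)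
    have z10 : T 10 = 0 := y10 (by omega)
    have z11 : T 11 = 0 := y11 (by omega)
    rw [z4, z6, z7, z8, z9, z10, z11] at e4
    have h2k : (2 : k) ≠ 0 := by
      have h3 : algebraMap F k 2 ≠ 0 := am_ne (two_ne_zero (α := F))
      rwa [map_ofNat] at h3
    have : 2 * T 12 = 0 := by linear_combination -e4
    rcases mul_eq_zero.1 this with h3 | h3
    · exact h2k h3
    · exact n12 h3
  obtain ⟨-, ht1, ht2, -, -, ht3, ht4⟩ := h.tri
  omega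

end Pool.Agent.Helper77.FN
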